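import Mathlib
import Pool.Agent.H4.SubGame

set_option autoImplicit false

namespace Pool.Agent.Results.MP_1f0dde_co.Aperiodic

/-- `P x y` says that `(x, y)` is a P-position of the normal-play subtraction game with
subtraction set `S`: no legal move leads to a P-position. -/
def IsOutcome (S : Finset (ℕ × ℕ)) (P : ℕ → ℕ → Prop) : Prop :=
  ∀ x y : ℕ, P x y ↔ ∀ s ∈ S, s.1 ≤ x → s.2 ≤ y → ¬ P (x - s.1) (y - s.2)

/-- The outcomes `P` are eventually periodic on the line `y = p x / q + m`. -/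
def LinePeriodic (P : ℕ → ℕ → Prop) (p q : ℕ) (m : ℚ) : Prop :=
  ∃ T x₀ : ℕ, 0 < T ∧
    (∀ x : ℤ, (∃ k : ℤ, (p : ℚ) * x / q + m = k) → ∃ k : ℤ, (p : ℚ) * (x + T) / q + m = k) ∧
    ∀ x y y' : ℕ, x₀ ≤ x → (y : ℚ) = (p : ℚ) * x / q + m → (y' : ℚ) = (p : ℚ) * (x + T) / q + m →
      (P x y ↔ P (x + T) y')

theorem result :
    ∃ S : Finset (ℕ × ℕ), (0, 0) ∉ S ∧ (∃ P, IsOutcome S P) ∧
      ∀ P, IsOutcome S P → ∃ (p q : ℕ) (m : ℚ), 0 < p ∧ 0 < q ∧
        {x : ℕ | ∃ y : ℕ, (y : ℚ) = (p : ℚ) * x / q + m}.Infinite ∧ ¬ LinePeriodic P p q m := by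
  have hv : IsOutcome H4.SubGame.moves.toFinset H4.SubGame.val := by
    intro x y
    rw [H4.SubGame.val_rec]
    simp only [List.mem_toFinset]
  refine ⟨H4.SubGame.moves.toFinset, ?_, ⟨_, hv⟩, ?_⟩
  · intro h
    have := (H4.SubGame.small _ (List.mem_toFinset.1 h)).1
    simp at this
  intro P hP
  have huniq : ∀ x y, P x y ↔ H4.SubGame.val x y := by
    intro x
    induction x using Nat.strong_induction_on with
    | _ x ih =>
      intro y
      rw [hP, hv]
      refine forall_congr' fun s => forall_congr' fun hs => forall_congr' fun h1 =>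
        forall_congr' fun _ => not_congr (ih _ ?_ _)
      have := (H4.SubGame.small _ (List.mem_toFinset.1 hs)).1
      omega
  refine ⟨1, 216, -8 / 9, by norm_num, by norm_num, ?_, ?_⟩
  · refine Set.infinite_of_injective_forall_mem (f := fun y : ℕ => 216 * y + 192) ?_ ?_
    · intro a b hab
      simp only at hab
      omega
    · intro y
      exact ⟨y, by push_cast; ring⟩
  · rintro ⟨T, x₀, hT, hint, hper⟩
    obtain ⟨k, hk⟩ := hint 192 ⟨0, by norm_num⟩
    have hk' : (T : ℤ) = 216 * k := by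
      have : (T : ℚ) = 216 * k := by push_cast at hk; linarith
      exact_mod_cast this
    obtain ⟨n, rfl⟩ : ∃ n : ℕ, T = 216 * n := ⟨k.toNat, by omega⟩
    have hn : 0 < n := by omega
    have hj : x₀ + n < 2 ^ (x₀ + n) := Nat.lt_two_pow_self
    obtain ⟨y, hy⟩ : ∃ y, y + 1 = 2 ^ (x₀ + n) := ⟨2 ^ (x₀ + n) - 1, by omega⟩
    have h := hper (216 * y + 192) y (y + n) (by omega) (by push_cast; ring) (by push_cast; ring)
    have e : 216 * y + 192 + 216 * n = 216 * (y + n) + 192 := by ring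
    rw [e, huniq, huniq, H4.SubGame.val_line, H4.SubGame.val_line] at h
    obtain ⟨j, hj'⟩ := h.1 ⟨_, hy⟩
    have a1 : x₀ + n < j := (Nat.pow_lt_pow_iff_right (by norm_num : 1 < 2)).1 (by omega)
    have a2 : j < x₀ + n + 1 :=
      (Nat.pow_lt_pow_iff_right (by norm_num : 1 < 2)).1 (by rw [pow_succ]; omega)
    omega

end Pool.Agent.Results.MP_1f0dde_co.Aperiodic
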